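import Pool.Agent.R287.TBd

set_option autoImplicit false

open Filter Topology Finset Pool.Agent.R287.TB

namespace Pool.Agent.Results.MP_abdce6_an.TBasisIsGammaBasis

/-- The sequence `x` with the functionals `f` is a `γ`-basis of `E` with respect to the scalar
matrix `μ`: it is an M-basis, `μ` satisfies (a) and (b), all series
`τ_n(v) = ∑_i μ n i f_i(v) x_i` converge in norm and `τ_n(v) → v`. -/
def IsGammaBasis {𝕜 : Type*} [RCLike 𝕜] {E : Type*} [NormedAddCommGroup E] [NormedSpace 𝕜 E]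
    (x : ℕ → E) (f : ℕ → E →L[𝕜] 𝕜) (μ : ℕ → ℕ → 𝕜) : Prop :=
  IsMBasis x f ∧
    (∀ i, Tendsto (fun n => μ n i) atTop (𝓝 1)) ∧
    (∃ C : ℝ, ∀ n, Summable (fun i => ‖μ n i - μ n (i + 1)‖) ∧
      ∑' i, ‖μ n i - μ n (i + 1)‖ ≤ C) ∧
    ∀ v : E, ∃ τ : ℕ → E,
      (∀ n, Tendsto (fun N => ∑ i ∈ range N, (μ n i * f i v) • x i) atTop (𝓝 (τ n))) ∧
      Tendsto τ atTop (𝓝 v)

/-- Every `T`-basis `x` of a real or complex Banach space, for an arbitrary consistent matrix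
`T = t`, is itself a `γ`-basis, even with respect to a row-finite matrix `μ`. In particular every
Banach space with a `T`-basis has a `γ`-basis. -/
theorem result {𝕜 : Type*} [RCLike 𝕜] {E : Type*} [NormedAddCommGroup E] [NormedSpace 𝕜 E]
    [CompleteSpace E] (t : ℕ → ℕ → 𝕜) (hT : Consistent t) (x : ℕ → E) (hx : IsTBasis t x) :
    ∃ (f : ℕ → E →L[𝕜] 𝕜) (μ : ℕ → ℕ → 𝕜), (∀ n, ∃ N, ∀ i, N ≤ i → μ n i = 0) ∧
      IsGammaBasis x f μ := by
  obtain ⟨f, μ, h1, h0, h2, h3, h4⟩ := main hT hx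
  exact ⟨f, μ, h0, h1, h2, h3, h4⟩

end Pool.Agent.Results.MP_abdce6_an.TBasisIsGammaBasis
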